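import Pool.Agent.Work.Helper86.Prog

set_option autoImplicit false
set_option linter.all false

namespace Pool.Agent.Work.Helper86

open List (Vector)

/-- `f` can be computed by a program, with arbitrary placement of inputs, output and scratch -/
def Comp {n : ℕ} (f : List.Vector ℕ n → ℕ) : Prop :=
  ∀ (ins : Fin n → ℕ) (out b : ℕ), (∀ i, ins i < b) → out < b → (∀ i, ins i ≠ out) →
    ∃ p : Prog, ∀ s : St, (∀ r, b ≤ r → s r = 0) → s out = 0 →
      Runs p s (Function.update s out (f (List.Vector.ofFn fun i => s (ins i))))

theorem Runs.congr {p : Prog} {s s' s'' : St} (h : Runs p s s') (e : s' = s'') : Runs p s s'' :=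
  e ▸ h

theorem comp_zero : @Comp 0 fun _ => 0 := by
  intro ins out b h1 h2 h3
  exact ⟨clr out, fun s hs hout => Runs.clr out s⟩

theorem comp_succ : @Comp 1 fun v => Nat.succ v.head := by
  intro ins out b h1 h2 h3
  refine ⟨Prog.seq (cp (ins 0) out b) (Prog.inc out), fun s hs hout => ?_⟩
  have h0 := h1 0
  refine (Runs.seq (Runs.cp (ins 0) out b (h3 0) (by omega) (by omega) s (hs b le_rfl))
    (Runs.inc out _)).congr ?_
  funext x
  simp only [Function.update_apply, List.Vector.head_ofFn]
  split_ifs <;> first | rfl | omega

theorem comp_get {n : ℕ} (i : Fin n) : @Comp n fun v => v.get i := by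
  intro ins out b h1 h2 h3
  refine ⟨cp (ins i) out b, fun s hs hout => ?_⟩
  have h0 := h1 i
  refine (Runs.cp (ins i) out b (h3 i) (by omega) (by omega) s (hs b le_rfl)).congr ?_
  funext x
  simp only [Function.update_apply, List.Vector.get_ofFn]
  split_ifs <;> first | rfl | omega

theorem comp_aux {m n : ℕ} (g : Fin n → List.Vector ℕ m → ℕ) (hg : ∀ i, Comp (g i))
    (ins : Fin m → ℕ) (b : ℕ) (hins : ∀ i, ins i < b) :
    ∀ k (hk : k ≤ n), ∃ P : Prog, ∀ s : St, (∀ r, b ≤ r → s r = 0) →
      Runs P s (fun r => if h : b ≤ r ∧ r < b + k then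
        g ⟨r - b, by omega⟩ (List.Vector.ofFn fun i => s (ins i)) else s r) := by
  intro k
  induction k with
  | zero =>
    intro hk
    refine ⟨clr b, fun s hs => ?_⟩
    refine (Runs.clr_of_zero (hs b le_rfl)).congr ?_
    funext x
    rw [dif_neg (by omega)]
  | succ k ih =>
    intro hk
    obtain ⟨P, hP⟩ := ih (by omega)
    obtain ⟨p, hp⟩ := hg ⟨k, by omega⟩ ins (b + k) (b + n) (fun i => by have := hins i; omega)
      (by omega) (fun i => by have := hins i; omega)
    refine ⟨Prog.seq P p, fun s hs => ?_⟩
    refine Runs.seq (hP s hs) ?_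
    refine (hp _ ?_ ?_).congr ?_
    · intro r hr
      rw [dif_neg (by omega)]
      exact hs r (by omega)
    · rw [dif_neg (by omega)]
      exact hs _ (by omega)
    · have e : (fun i => (fun r => if h : b ≤ r ∧ r < b + k then
          g ⟨r - b, by omega⟩ (List.Vector.ofFn fun i => s (ins i)) else s r) (ins i))
          = fun i => s (ins i) := by
        funext i
        have := hins i
        simp only
        rw [dif_neg (by omega)]
      rw [e]
      funext x
      simp only [Function.update_apply]
      by_cases hx : x = b + k
      · subst hx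
        rw [if_pos rfl, dif_pos (by omega)]
        congr 2
        simp
      · rw [if_neg hx]
        by_cases hx2 : b ≤ x ∧ x < b + k
        · rw [dif_pos hx2, dif_pos (by omega)]
        · rw [dif_neg hx2, dif_neg (by omega)]

theorem clear_range (b z : ℕ) : ∀ k, (z < b ∨ b + k ≤ z) → ∃ P : Prog, ∀ s : St, s z = 0 →
    Runs P s (fun r => if b ≤ r ∧ r < b + k then 0 else s r) := by
  intro k
  induction k with
  | zero =>
    intro hz
    refine ⟨clr z, fun s hs => ?_⟩
    refine (Runs.clr_of_zero hs).congr ?_
    funext x
    rw [if_neg (by omega)]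
  | succ k ih =>
    intro hz
    obtain ⟨P, hP⟩ := ih (by omega)
    refine ⟨Prog.seq P (clr (b + k)), fun s hs => ?_⟩
    refine Runs.seq (hP s hs) ((Runs.clr _ _).congr ?_)
    funext x
    simp only [Function.update_apply]
    by_cases hx : x = b + k
    · rw [if_pos hx, if_pos (by omega)]
    · rw [if_neg hx]
      by_cases hx2 : b ≤ x ∧ x < b + k
      · rw [if_pos hx2, if_pos (by omega)]
      · rw [if_neg hx2, if_neg (by omega)]

theorem comp_comp {m n : ℕ} {f : List.Vector ℕ n → ℕ} (g : Fin n → List.Vector ℕ m → ℕ)
    (hf : Comp f) (hg : ∀ i, Comp (g i)) :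
    Comp fun a => f (List.Vector.ofFn fun i => g i a) := by
  intro ins out b h1 h2 h3
  obtain ⟨P, hP⟩ := comp_aux g hg ins b h1 n le_rfl
  obtain ⟨p, hp⟩ := hf (fun i => b + i) out (b + n) (fun i => by have := i.2; omega) (by omega)
    (fun i => by omega)
  obtain ⟨C, hC⟩ := clear_range b (b + n) n (Or.inr le_rfl)
  refine ⟨Prog.seq P (Prog.seq p C), fun s hs hout => ?_⟩
  refine Runs.seq (hP s hs) ?_
  refine Runs.seq (hp _ ?_ ?_) ?_
  · intro r hr
    rw [dif_neg (by omega)]
    exact hs r (by omega)
  · rw [dif_neg (by omega)]
    exact hout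
  · refine (hC _ ?_).congr ?_
    · rw [Function.update_of_ne (by omega), dif_neg (by omega)]
      exact hs _ (by omega)
    · have e : (fun i : Fin n => (fun r => if h : b ≤ r ∧ r < b + n then
          g ⟨r - b, by omega⟩ (List.Vector.ofFn fun i => s (ins i)) else s r) (b + i))
          = fun i => g i (List.Vector.ofFn fun i => s (ins i)) := by
        funext i
        have := i.2
        simp only
        rw [dif_pos (by omega)]
        congr 1
        congr 1
        omega
      rw [e]
      funext x
      simp only [Function.update_apply]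
      by_cases hx2 : b ≤ x ∧ x < b + n
      · rw [if_pos hx2, if_neg (by omega)]
        exact (hs x hx2.1).symm
      · rw [if_neg hx2]
        by_cases hx : x = out
        · rw [if_pos hx, if_pos hx]
        · rw [if_neg hx, if_neg hx, dif_neg hx2]

theorem comp_prec {n : ℕ} {f : List.Vector ℕ n → ℕ} {g : List.Vector ℕ (n + 2) → ℕ}
    (hf : Comp f) (hg : Comp g) :
    Comp fun v : List.Vector ℕ (n + 1) =>
      v.head.rec (f v.tail) fun y IH => g (y ::ᵥ IH ::ᵥ v.tail) := by
  intro ins out b h1 h2 h3
  have hb0 := h1 0
  obtain ⟨pf, hpf⟩ := hf (fun i => ins i.succ) (b + 1) (b + 4)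
    (fun i => by have := h1 i.succ; omega) (by omega) (fun i => by have := h1 i.succ; omega)
  obtain ⟨pg, hpg⟩ := hg (Fin.cons b (Fin.cons (b + 1) (fun i => ins i.succ))) (b + 2) (b + 4)
    (by
      intro i
      refine Fin.cases ?_ (fun j => ?_) i
      · simp
      · refine Fin.cases ?_ (fun l => ?_) j
        · simp
        · simp only [Fin.cons_succ]
          have := h1 l.succ; omega) (by omega)
    (by
      intro i
      refine Fin.cases ?_ (fun j => ?_) i
      · simp
      · refine Fin.cases ?_ (fun l => ?_) j
        · simp
        · simp only [Fin.cons_succ]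
          have := h1 l.succ; omega)
  let body : Prog := Prog.seq (Prog.dec (b + 3)) (Prog.seq pg (Prog.seq (clr (b + 1))
    (Prog.seq (mv (b + 2) (b + 1)) (Prog.inc b))))
  refine ⟨Prog.seq (cp (ins 0) (b + 3) (b + 4)) (Prog.seq pf (Prog.seq (Prog.wh (b + 3) body)
    (Prog.seq (mv (b + 1) out) (clr b)))), fun s hs hout => ?_⟩
  set V : List.Vector ℕ (n + 1) := List.Vector.ofFn fun i => s (ins i) with hV
  set N := s (ins 0) with hN
  let F : ℕ → ℕ := fun k => Nat.rec (f V.tail) (fun y IH => g (y ::ᵥ IH ::ᵥ V.tail)) k
  have hF0 : F 0 = f V.tail := rfl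
  have hFS : ∀ k, F (k + 1) = g (k ::ᵥ F k ::ᵥ V.tail) := fun k => rfl
  let U : ℕ → St := fun j => Function.update (Function.update (Function.update s (b + 3) (N - j))
    (b + 1) (F j)) b j
  have hVt : V.tail = List.Vector.ofFn fun i : Fin n => s (ins i.succ) := by
    rw [hV, List.Vector.tail_ofFn]
  have hcp : Runs (cp (ins 0) (b + 3) (b + 4)) s (Function.update s (b + 3) N) := by
    refine (Runs.cp (ins 0) (b + 3) (b + 4) (by omega) (by omega) (by omega) s
      (hs _ (by omega))).congr ?_
    rw [hs (b + 3) (by omega), zero_add]
  have hpf' : Runs pf (Function.update s (b + 3) N) (U 0) := by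
    refine (hpf _ ?_ ?_).congr ?_
    · intro r hr
      rw [Function.update_of_ne (by omega)]
      exact hs r (by omega)
    · rw [Function.update_of_ne (by omega)]
      exact hs _ (by omega)
    · have e : (fun i : Fin n => Function.update s (b + 3) N (ins i.succ))
          = fun i => s (ins i.succ) := by
        funext i
        have := h1 i.succ
        rw [Function.update_of_ne (by omega)]
      rw [e, ← hVt, ← hF0]
      funext x
      change _ = U 0 x
      simp only [U, Function.update_apply, Nat.sub_zero]
      have := hs b (by omega)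
      split_ifs <;> first | rfl | omega | simp_all
  have hbody : ∀ j, j < N → Runs body (U j) (U (j + 1)) := by
    intro j hj
    refine Runs.seq (Runs.dec _ _) ?_
    have hU3 : U j (b + 3) = N - j := by
      simp only [U, Function.update_apply]
      split_ifs <;> first | rfl | omega
    rw [hU3]
    have e : (fun i => Function.update (U j) (b + 3) (N - j - 1)
        ((Fin.cons b (Fin.cons (b + 1) (fun i : Fin n => ins i.succ)) : Fin (n + 2) → ℕ) i))
        = (Fin.cons j (Fin.cons (F j) (fun i : Fin n => s (ins i.succ))) : Fin (n + 2) → ℕ) := by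
      funext i
      refine Fin.cases ?_ (fun i2 => ?_) i
      · simp only [Fin.cons_zero, U, Function.update_apply]
        split_ifs <;> first | rfl | omega
      · refine Fin.cases ?_ (fun i3 => ?_) i2
        · simp only [Fin.cons_zero, Fin.cons_succ, U, Function.update_apply]
          split_ifs <;> first | rfl | omega
        · have := h1 i3.succ
          simp only [Fin.cons_succ, U, Function.update_apply]
          split_ifs <;> first | rfl | omega
    have e2 : List.Vector.ofFn (Fin.cons j (Fin.cons (F j) (fun i : Fin n => s (ins i.succ))) : Fin (n + 2) → ℕ)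
        = j ::ᵥ F j ::ᵥ V.tail := by
      rw [hVt]
      apply List.Vector.ext
      intro i
      rw [List.Vector.get_ofFn]
      refine Fin.cases ?_ (fun i2 => ?_) i
      · simp only [Fin.cons_zero, List.Vector.get_cons_zero]
      · refine Fin.cases ?_ (fun i3 => ?_) i2
        · simp only [Fin.cons_zero, Fin.cons_succ, List.Vector.get_cons_zero, List.Vector.get_cons_succ]
        · simp only [Fin.cons_succ, List.Vector.get_cons_succ, List.Vector.get_ofFn]
    refine Runs.seq (hpg (Function.update (U j) (b + 3) (N - j - 1)) ?_ ?_) ?_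
    · intro r hr
      simp only [U, Function.update_apply]
      rw [if_neg (by omega), if_neg (by omega), if_neg (by omega), if_neg (by omega)]
      exact hs r (by omega)
    · simp only [U, Function.update_apply]
      rw [if_neg (by omega), if_neg (by omega), if_neg (by omega), if_neg (by omega)]
      exact hs _ (by omega)
    · rw [e, e2, ← hFS]
      refine Runs.seq (Runs.clr _ _) (Runs.seq (Runs.mv (b + 2) (b + 1) (by omega) _)
        ((Runs.inc b _).congr ?_))
      have hz := hs (b + 2) (by omega)
      funext x
      simp only [U, Function.update_apply]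
      split_ifs <;> first | rfl | omega | (subst_vars; first | rfl | omega)
  have hloop : ∀ k, k ≤ N → Runs (Prog.wh (b + 3) body) (U (N - k)) (U N) := by
    intro k
    induction k with
    | zero =>
      intro _
      rw [Nat.sub_zero]
      apply Runs.wh0
      simp only [U, Function.update_apply]
      split_ifs <;> omega
    | succ k ih =>
      intro hk
      refine Runs.whS ?_ (hbody (N - (k + 1)) (by omega)) ?_
      · simp only [U, Function.update_apply]
        split_ifs <;> omega
      · have : N - (k + 1) + 1 = N - k := by omega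
        rw [this]
        exact ih (by omega)
  refine Runs.seq hcp (Runs.seq hpf' (Runs.seq ?_ (Runs.seq (Runs.mv (b + 1) out (by omega) (U N))
    ((Runs.clr b _).congr ?_))))
  · have := hloop N le_rfl
    rwa [Nat.sub_self] at this
  · have e3 : V.head = N := by rw [hV, List.Vector.head_ofFn]
    have e4 : (V.head.rec (f V.tail) fun y IH => g (y ::ᵥ IH ::ᵥ V.tail) : ℕ) = F N := by
      rw [e3]
    beta_reduce
    rw [e4]
    have hz1 := hs (b + 1) (by omega)
    have hz0 := hs b (by omega)
    have hz3 := hs (b + 3) (by omega)
    funext x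
    simp only [U, Function.update_apply]
    split_ifs <;> first | rfl | omega | (subst_vars; first | rfl | omega)

theorem comp_of_primrec {n : ℕ} {f : List.Vector ℕ n → ℕ} (hf : Nat.Primrec' f) : Comp f := by
  induction hf with
  | zero => exact comp_zero
  | succ => exact comp_succ
  | get i => exact comp_get i
  | comp g _ _ ihf ihg => exact comp_comp g ihf ihg
  | prec _ _ ihf ihg => exact comp_prec ihf ihg

end Pool.Agent.Work.Helper86
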