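import Pool.Agent.Work.Helper86.Compile

set_option autoImplicit false
set_option linter.all false

namespace Pool.Agent.Work.Helper86

/-- elementary register operations -/
inductive Op : Type
  | nop
  | inc
  | dec
  deriving DecidableEq

def Op.app : Op → ℕ → ℕ
  | Op.nop, n => n
  | Op.inc, n => n + 1
  | Op.dec, n => n - 1

/-- counter machines with finite control -/
structure CM where
  Q : Type
  fin : Fintype Q
  deq : DecidableEq Q
  B : ℕ
  hlt : Q
  reg : Q → Fin B
  nxt : Q → Bool → Q
  op : Q → Bool → Op
  op_ok : ∀ q, op q false ≠ Op.dec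

namespace CM

variable (M : CM)

/-- one step: test the register attached to the state, change it and move to the next state -/
def step (c : M.Q × (Fin M.B → ℕ)) : M.Q × (Fin M.B → ℕ) :=
  (M.nxt c.1 (decide (c.2 (M.reg c.1) ≠ 0)),
    Function.update c.2 (M.reg c.1) ((M.op c.1 (decide (c.2 (M.reg c.1) ≠ 0))).app (c.2 (M.reg c.1))))

end CM

/-! ### finite control extracted from a program -/

def nextL : List Prog → Bool → List Prog
  | [], _ => []
  | Prog.inc _ :: k, _ => k
  | Prog.dec _ :: k, _ => k
  | Prog.seq p q :: k, _ => p :: q :: k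
  | Prog.wh r p :: k, z => if z then p :: Prog.wh r p :: k else k

def regL : List Prog → ℕ
  | [] => 0
  | Prog.inc r :: _ => r
  | Prog.dec r :: _ => r
  | Prog.seq _ _ :: _ => 0
  | Prog.wh r _ :: _ => r

def opL : List Prog → Bool → Op
  | Prog.inc _ :: _, _ => Op.inc
  | Prog.dec _ :: _, z => if z then Op.dec else Op.nop
  | _, _ => Op.nop

theorem opL_false (l : List Prog) : opL l false ≠ Op.dec := by
  unfold opL
  split <;> simp

theorem stp_eq (l : List Prog) (s : St) :
    stp (l, s) = (nextL l (decide (s (regL l) ≠ 0)),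
      Function.update s (regL l) ((opL l (decide (s (regL l) ≠ 0))).app (s (regL l)))) := by
  match l with
  | [] => simp [stp, nextL, opL, Op.app, regL]
  | Prog.inc r :: k => simp [stp, nextL, opL, Op.app, regL]
  | Prog.dec r :: k =>
    by_cases h : s r = 0
    · simp [stp, nextL, opL, Op.app, regL, h]
    · simp [stp, nextL, opL, Op.app, regL, h]
  | Prog.seq p q :: k => simp [stp, nextL, opL, Op.app, regL]
  | Prog.wh r p :: k =>
    by_cases h : s r = 0
    · simp [stp, nextL, opL, Op.app, regL, h]
    · simp [stp, nextL, opL, Op.app, regL, h]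

def conts : Prog → List Prog → Finset (List Prog)
  | Prog.inc r, k => {Prog.inc r :: k}
  | Prog.dec r, k => {Prog.dec r :: k}
  | Prog.seq p q, k => insert (Prog.seq p q :: k) (conts p (q :: k) ∪ conts q k)
  | Prog.wh r p, k => insert (Prog.wh r p :: k) (conts p (Prog.wh r p :: k))

theorem mem_conts_self (p : Prog) (k : List Prog) : p :: k ∈ conts p k := by
  cases p <;> simp [conts]

theorem conts_closed (p : Prog) : ∀ (k l : List Prog), l ∈ conts p k → ∀ z,
    nextL l z ∈ conts p k ∨ nextL l z = k := by
  induction p with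
  | inc r =>
    intro k l hl z
    simp only [conts, Finset.mem_singleton] at hl
    subst hl; right; rfl
  | dec r =>
    intro k l hl z
    simp only [conts, Finset.mem_singleton] at hl
    subst hl; right; rfl
  | seq p q ihp ihq =>
    intro k l hl z
    simp only [conts, Finset.mem_insert, Finset.mem_union] at hl ⊢
    rcases hl with hl | hl | hl
    · subst hl
      left; right; left
      exact mem_conts_self p (q :: k)
    · rcases ihp _ _ hl z with h | h
      · left; right; left; exact h
      · left; right; right; rw [h]; exact mem_conts_self q k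
    · rcases ihq _ _ hl z with h | h
      · left; right; right; exact h
      · right; exact h
  | wh r p ihp =>
    intro k l hl z
    simp only [conts, Finset.mem_insert] at hl ⊢
    rcases hl with hl | hl
    · subst hl
      cases z with
      | true => left; right; exact mem_conts_self p _
      | false => right; rfl
    · rcases ihp _ _ hl z with h | h
      · left; right; exact h
      · left; left; exact h

def bd : Prog → ℕ
  | Prog.inc r => r + 1
  | Prog.dec r => r + 1
  | Prog.seq p q => max (bd p) (bd q)
  | Prog.wh r p => max (r + 1) (bd p)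

theorem bd_pos (p : Prog) : 0 < bd p := by
  induction p with
  | inc r => simp [bd]
  | dec r => simp [bd]
  | seq p q ihp ihq => simp [bd, ihp]
  | wh r p ihp => simp [bd]

theorem regL_lt (p : Prog) : ∀ (k l : List Prog), l ∈ conts p k → regL l < bd p := by
  induction p with
  | inc r =>
    intro k l hl
    simp only [conts, Finset.mem_singleton] at hl
    subst hl; simp [regL, bd]
  | dec r =>
    intro k l hl
    simp only [conts, Finset.mem_singleton] at hl
    subst hl; simp [regL, bd]
  | seq p q ihp ihq =>
    intro k l hl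
    simp only [conts, Finset.mem_insert, Finset.mem_union] at hl
    rcases hl with hl | hl | hl
    · subst hl
      exact lt_of_lt_of_le (bd_pos p) (le_max_left _ _)
    · exact lt_of_lt_of_le (ihp _ _ hl) (le_max_left _ _)
    · exact lt_of_lt_of_le (ihq _ _ hl) (le_max_right _ _)
  | wh r p ihp =>
    intro k l hl
    simp only [conts, Finset.mem_insert] at hl
    rcases hl with hl | hl
    · subst hl
      simp [regL, bd]
    · exact lt_of_lt_of_le (ihp _ _ hl) (le_max_right _ _)

/-- the counter machine of a program; `b` is a bound for additional registers -/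
def toCM (p : Prog) (b : ℕ) : CM where
  Q := {l : List Prog // l ∈ insert [] (conts p [])}
  fin := inferInstance
  deq := inferInstance
  B := max b (bd p)
  hlt := ⟨[], Finset.mem_insert_self _ _⟩
  reg q := ⟨regL q.1, by
    rcases Finset.mem_insert.1 q.2 with h | h
    · rw [h]; exact lt_of_lt_of_le (bd_pos p) (le_max_right _ _)
    · exact lt_of_lt_of_le (regL_lt p _ _ h) (le_max_right _ _)⟩
  nxt q z := ⟨nextL q.1 z, by
    rcases Finset.mem_insert.1 q.2 with h | h
    · rw [h]; exact Finset.mem_insert_self _ _
    · rcases conts_closed p _ _ h z with h' | h'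
      · exact Finset.mem_insert_of_mem h'
      · rw [h']; exact Finset.mem_insert_self _ _⟩
  op q z := opL q.1 z
  op_ok q := opL_false q.1

theorem toCM_step (p : Prog) (b : ℕ) (q : (toCM p b).Q) (s : St) :
    let c := (toCM p b).step (q, fun i => s i)
    (c.1.1 = (stp (q.1, s)).1) ∧ (c.2 = fun i : Fin (toCM p b).B => (stp (q.1, s)).2 i) := by
  dsimp only
  rw [stp_eq]
  refine ⟨rfl, ?_⟩
  funext i
  unfold CM.step
  simp only [Function.update_apply]
  have e : (i = (toCM p b).reg q) ↔ ((i : ℕ) = regL q.1) := by
    constructor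
    · intro h; rw [h]; rfl
    · intro h; exact Fin.ext h
  by_cases h : (i : ℕ) = regL q.1
  · rw [if_pos h, if_pos (e.2 h)]; rfl
  · rw [if_neg h, if_neg (fun h' => h (e.1 h'))]

theorem toCM_iterate (p : Prog) (b : ℕ) (q : (toCM p b).Q) (s : St) (n : ℕ) :
    (((toCM p b).step^[n] (q, fun i => s i)).1.1 = (stp^[n] (q.1, s)).1) ∧
      (((toCM p b).step^[n] (q, fun i => s i)).2 =
        fun i : Fin (toCM p b).B => (stp^[n] (q.1, s)).2 i) := by
  induction n with
  | zero => exact ⟨rfl, rfl⟩
  | succ n ih =>
    rw [Function.iterate_succ_apply', Function.iterate_succ_apply']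
    obtain ⟨h1, h2⟩ := ih
    have h3 := toCM_step p b ((toCM p b).step^[n] (q, fun i => s i)).1 (stp^[n] (q.1, s)).2
    dsimp only at h3
    rw [← h2, h1] at h3
    exact h3

theorem stp_nil (s : St) (n : ℕ) : stp^[n] ([], s) = ([], s) := by
  induction n with
  | zero => rfl
  | succ n ih => rw [Function.iterate_succ_apply', ih]; rfl

/-- the initial registers -/
def ini (n e : ℕ) : St := fun r => if r = 0 then n else if r = 1 then e else 0

open Nat.Partrec (Code)
open Encodable Denumerable

def flagF (v : List.Vector ℕ 3) : ℕ :=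
  1 - encode (Code.evaln (v.get 2) (ofNat Code (v.get 1)) (v.get 0))

def outF (v : List.Vector ℕ 3) : ℕ :=
  encode (Code.evaln (v.get 2 - 1) (ofNat Code (v.get 1)) (v.get 0)) - 1

theorem primrec_flagF : Primrec flagF := by
  have h0 : Primrec fun v : List.Vector ℕ 3 => v.get 0 := Primrec.vector_get.comp .id (Primrec.const _)
  have h1 : Primrec fun v : List.Vector ℕ 3 => v.get 1 := Primrec.vector_get.comp .id (Primrec.const _)
  have h2 : Primrec fun v : List.Vector ℕ 3 => v.get 2 := Primrec.vector_get.comp .id (Primrec.const _)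
  have he : Primrec fun v : List.Vector ℕ 3 =>
      Code.evaln (v.get 2) (ofNat Code (v.get 1)) (v.get 0) :=
    Code.primrec_evaln.comp (Primrec.pair (Primrec.pair h2 ((Primrec.ofNat Code).comp h1)) h0)
  exact Primrec.nat_sub.comp (Primrec.const 1) (Primrec.encode.comp he)

theorem primrec_outF : Primrec outF := by
  have h0 : Primrec fun v : List.Vector ℕ 3 => v.get 0 := Primrec.vector_get.comp .id (Primrec.const _)
  have h1 : Primrec fun v : List.Vector ℕ 3 => v.get 1 := Primrec.vector_get.comp .id (Primrec.const _)
  have h2 : Primrec fun v : List.Vector ℕ 3 => v.get 2 := Primrec.vector_get.comp .id (Primrec.const _)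
  have h2' : Primrec fun v : List.Vector ℕ 3 => v.get 2 - 1 := Primrec.nat_sub.comp h2 (Primrec.const 1)
  have he : Primrec fun v : List.Vector ℕ 3 =>
      Code.evaln (v.get 2 - 1) (ofNat Code (v.get 1)) (v.get 0) :=
    Code.primrec_evaln.comp (Primrec.pair (Primrec.pair h2' ((Primrec.ofNat Code).comp h1)) h0)
  exact Primrec.nat_sub.comp (Primrec.encode.comp he) (Primrec.const 1)

/-- registers during the search: input, code, bound, flag -/
def srch (n e k f : ℕ) : St :=
  fun r => if r = 0 then n else if r = 1 then e else if r = 2 then k else if r = 3 then f else 0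

theorem universal_prog : ∃ P : Prog,
    (∀ (c : Code) (n y : ℕ), y ∈ c.eval n → ∃ s' : St, Runs P (ini n (encode c)) s' ∧ s' 0 = y) ∧
    (∀ (c : Code) (n : ℕ), (∃ N, (stp^[N] ([P], ini n (encode c))).1 = []) → (c.eval n).Dom) := by
  have c1 : Comp flagF := comp_of_primrec (Nat.Primrec'.of_prim primrec_flagF)
  have c2 : Comp outF := comp_of_primrec (Nat.Primrec'.of_prim primrec_outF)
  obtain ⟨Pf, hPf⟩ := c1 (fun i => (i : ℕ)) 3 5 (fun i => by have := i.2; omega) (by omega)
    (fun i => by have := i.2; omega)
  obtain ⟨Po, hPo⟩ := c2 (fun i => (i : ℕ)) 4 5 (fun i => by have := i.2; omega) (by omega)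
    (fun i => by have := i.2; omega)
  let body : Prog := Prog.seq (Prog.dec 3) (Prog.seq Pf (Prog.inc 2))
  let P : Prog := Prog.seq (Prog.inc 3) (Prog.seq (Prog.wh 3 body)
    (Prog.seq Po (Prog.seq (clr 0) (mv 4 0))))
  have hstart : ∀ n e, Runs (Prog.inc 3) (ini n e) (srch n e 0 1) := by
    intro n e
    refine (Runs.inc 3 _).congr ?_
    funext x
    rcases x with _ | _ | _ | _ | x <;> simp [ini, srch, Function.update_apply]
  have hvec : ∀ n e k f, (List.Vector.ofFn fun i : Fin 3 => srch n e k f (i : ℕ)) =
      n ::ᵥ e ::ᵥ k ::ᵥ List.Vector.nil := by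
    intro n e k f
    rfl
  have hbody : ∀ n (c : Code) k, Runs body (srch n (encode c) k 1)
      (srch n (encode c) (k + 1) (1 - encode (Code.evaln k c n))) := by
    intro n c k
    refine Runs.seq (Runs.dec 3 _) ?_
    have e1 : Function.update (srch n (encode c) k 1) 3 (srch n (encode c) k 1 3 - 1)
        = srch n (encode c) k 0 := by
      funext x
      rcases x with _ | _ | _ | _ | x <;> simp [srch, Function.update_apply]
    rw [e1]
    refine Runs.seq (hPf _ ?_ ?_) ((Runs.inc 2 _).congr ?_)
    · intro r hr
      simp only [srch]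
      split_ifs <;> first | rfl | omega
    · rfl
    · rw [hvec]
      have e2 : flagF (n ::ᵥ encode c ::ᵥ k ::ᵥ List.Vector.nil) = 1 - encode (Code.evaln k c n) := by
        unfold flagF
        have : ofNat Code (encode c) = c := ofNat_encode c
        change 1 - encode (Code.evaln k (ofNat Code (encode c)) n) = _
        rw [this]
      rw [e2]
      funext x
      rcases x with _ | _ | _ | _ | x <;> simp [srch, Function.update_apply]
  refine ⟨P, ?_, ?_⟩
  · intro c n y hy
    have hex : ∃ k, Code.evaln k c n ≠ none := by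
      obtain ⟨k, hk⟩ := Code.evaln_complete.1 hy
      refine ⟨k, ?_⟩
      rw [Option.mem_def] at hk
      rw [hk]; simp
    classical
    let k0 := Nat.find hex
    have hk0 : Code.evaln k0 c n ≠ none := Nat.find_spec hex
    have hmin : ∀ k < k0, Code.evaln k c n = none := by
      intro k hk
      by_contra hne
      exact Nat.find_min hex hk hne
    have hy0 : Code.evaln k0 c n = some y := by
      obtain ⟨z, hz⟩ := Option.ne_none_iff_exists'.1 hk0
      have h1 : z ∈ c.eval n := Code.evaln_sound (by rw [Option.mem_def]; exact hz)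
      rw [hz, Part.mem_unique h1 hy]
    have hlast : Runs (Prog.wh 3 body) (srch n (encode c) k0 1) (srch n (encode c) (k0 + 1) 0) := by
      refine Runs.whS (by simp [srch]) (hbody n c k0) ?_
      rw [hy0]
      have : 1 - encode (some y) = 0 := by simp
      rw [this]
      exact Runs.wh0 rfl
    have hloop : ∀ j, j ≤ k0 → Runs (Prog.wh 3 body) (srch n (encode c) (k0 - j) 1)
        (srch n (encode c) (k0 + 1) 0) := by
      intro j
      induction j with
      | zero => intro _; exact hlast
      | succ j ih =>
        intro hj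
        refine Runs.whS (by simp [srch]) (hbody n c (k0 - (j + 1))) ?_
        rw [hmin (k0 - (j + 1)) (by omega)]
        have e1 : 1 - encode (none : Option ℕ) = 1 := by simp
        have e2 : k0 - (j + 1) + 1 = k0 - j := by omega
        rw [e1, e2]
        exact ih (by omega)
    have hl := hloop k0 le_rfl
    rw [Nat.sub_self] at hl
    have ho := hPo (srch n (encode c) (k0 + 1) 0) (by
      intro r hr
      simp only [srch]
      split_ifs <;> first | rfl | omega) rfl
    rw [hvec] at ho
    have e3 : outF (n ::ᵥ encode c ::ᵥ (k0 + 1) ::ᵥ List.Vector.nil) = y := by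
      unfold outF
      have : ofNat Code (encode c) = c := ofNat_encode c
      change encode (Code.evaln (k0 + 1 - 1) (ofNat Code (encode c)) n) - 1 = _
      rw [this, Nat.add_sub_cancel, hy0]
      simp
    rw [e3] at ho
    refine ⟨_, Runs.seq (hstart n (encode c)) (Runs.seq hl (Runs.seq ho (Runs.seq (Runs.clr 0 _)
      (Runs.mv 4 0 (by omega) _)))), ?_⟩
    simp [Function.update_apply]
  · intro c n ⟨N, hN⟩
    by_contra hdom
    have hnone : ∀ k, Code.evaln k c n = none := by
      intro k
      by_contra hne
      obtain ⟨z, hz⟩ := Option.ne_none_iff_exists'.1 hne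
      have h1 : z ∈ c.eval n := Code.evaln_sound (by rw [Option.mem_def]; exact hz)
      exact hdom (Part.dom_iff_mem.2 ⟨z, h1⟩)
    let rest : List Prog := [Prog.seq Po (Prog.seq (clr 0) (mv 4 0))]
    have hinf : ∀ j, ∃ m, j ≤ m ∧ stp^[m] ([P], ini n (encode c)) =
        (Prog.wh 3 body :: rest, srch n (encode c) j 1) := by
      intro j
      induction j with
      | zero =>
        obtain ⟨m, hm, e⟩ := hstart n (encode c) [Prog.seq (Prog.wh 3 body)
          (Prog.seq Po (Prog.seq (clr 0) (mv 4 0)))]
        refine ⟨1 + m + 1, by omega, ?_⟩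
        rw [Function.iterate_add_apply stp (1 + m) 1, Function.iterate_one]
        have e1 : stp ([P], ini n (encode c)) = (Prog.inc 3 :: [Prog.seq (Prog.wh 3 body)
          (Prog.seq Po (Prog.seq (clr 0) (mv 4 0)))], ini n (encode c)) := rfl
        rw [e1, Function.iterate_add_apply, e]
        rfl
      | succ j ih =>
        obtain ⟨m, hm, e⟩ := ih
        obtain ⟨m', hm', e'⟩ := hbody n c j (Prog.wh 3 body :: rest)
        refine ⟨m' + 1 + m, by omega, ?_⟩
        rw [Function.iterate_add_apply stp (m' + 1) m, e, Function.iterate_add_apply stp m' 1,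
          Function.iterate_one]
        have e1 : stp (Prog.wh 3 body :: rest, srch n (encode c) j 1)
            = (body :: Prog.wh 3 body :: rest, srch n (encode c) j 1) := rfl
        rw [e1, e', hnone j]
        simp
    obtain ⟨m, hm, e⟩ := hinf N
    obtain ⟨d, rfl⟩ := Nat.exists_eq_add_of_le hm
    rw [add_comm N d, Function.iterate_add_apply] at e
    have e2 : stp^[N] ([P], ini n (encode c)) = ([], (stp^[N] ([P], ini n (encode c))).2) :=
      Prod.ext hN rfl
    rw [e2, stp_nil] at e
    simp at e

/-- the universal counter machine -/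
theorem universal_CM : ∃ (M : CM) (q0 : M.Q) (r0 r1 : Fin M.B), r0 ≠ r1 ∧
    (∀ z, M.nxt M.hlt z = M.hlt ∧ M.op M.hlt z = Op.nop) ∧
    (∀ (c : Code) (n y : ℕ), y ∈ c.eval n → ∃ N,
      (M.step^[N] (q0, fun i => if i = r0 then n else if i = r1 then encode c else 0)).1 = M.hlt ∧
      (M.step^[N] (q0, fun i => if i = r0 then n else if i = r1 then encode c else 0)).2 r0 = y) ∧
    (∀ (c : Code) (n : ℕ), (∃ N,
      (M.step^[N] (q0, fun i => if i = r0 then n else if i = r1 then encode c else 0)).1 = M.hlt) →
      (c.eval n).Dom) := by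
  obtain ⟨P, hP1, hP2⟩ := universal_prog
  have hB : 2 ≤ (toCM P 2).B := le_max_left _ _
  have hini : ∀ n e, (fun i : Fin (toCM P 2).B => if i = ⟨0, by omega⟩ then n else
      if i = ⟨1, by omega⟩ then e else 0) = fun i : Fin (toCM P 2).B => ini n e i := by
    intro n e
    funext i
    simp only [ini, Fin.ext_iff]
  refine ⟨toCM P 2, ⟨[P], Finset.mem_insert_of_mem (mem_conts_self P [])⟩, ⟨0, by omega⟩,
    ⟨1, by omega⟩, by simp, ?_, ?_, ?_⟩
  · intro z
    exact ⟨rfl, rfl⟩
  · intro c n y hy
    obtain ⟨s', hs', hy'⟩ := hP1 c n y hy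
    obtain ⟨N, _, hN⟩ := hs' []
    refine ⟨N, ?_, ?_⟩
    · rw [hini]
      have := toCM_iterate P 2 ⟨[P], Finset.mem_insert_of_mem (mem_conts_self P [])⟩
        (ini n (encode c)) N
      apply Subtype.ext
      rw [this.1, hN]
      rfl
    · rw [hini]
      have := toCM_iterate P 2 ⟨[P], Finset.mem_insert_of_mem (mem_conts_self P [])⟩
        (ini n (encode c)) N
      rw [this.2, hN]
      exact hy'
  · intro c n ⟨N, hN⟩
    apply hP2 c n
    refine ⟨N, ?_⟩
    rw [hini] at hN
    have := toCM_iterate P 2 ⟨[P], Finset.mem_insert_of_mem (mem_conts_self P [])⟩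
        (ini n (encode c)) N
    rw [← this.1, hN]
    rfl

end Pool.Agent.Work.Helper86
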