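import Mathlib

set_option autoImplicit false
set_option linter.all false

namespace Pool.Agent.Work.Helper86

/-- while programs over registers -/
inductive Prog : Type
  | inc (r : ℕ)
  | dec (r : ℕ)
  | seq (p q : Prog)
  | wh (r : ℕ) (p : Prog)
  deriving DecidableEq

abbrev St := ℕ → ℕ

/-- one step of execution; the first component is the list of programs still to be run -/
def stp : List Prog × St → List Prog × St
  | ([], s) => ([], s)
  | (Prog.inc r :: k, s) => (k, Function.update s r (s r + 1))
  | (Prog.dec r :: k, s) => (k, Function.update s r (s r - 1))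
  | (Prog.seq p q :: k, s) => (p :: q :: k, s)
  | (Prog.wh r p :: k, s) => if s r = 0 then (k, s) else (p :: Prog.wh r p :: k, s)

/-- running `p` from state `s` ends in state `s'` -/
def Runs (p : Prog) (s s' : St) : Prop :=
  ∀ k, ∃ n, 0 < n ∧ stp^[n] (p :: k, s) = (k, s')

theorem Runs.inc (r : ℕ) (s : St) : Runs (Prog.inc r) s (Function.update s r (s r + 1)) :=
  fun k => ⟨1, one_pos, rfl⟩

theorem Runs.dec (r : ℕ) (s : St) : Runs (Prog.dec r) s (Function.update s r (s r - 1)) :=
  fun k => ⟨1, one_pos, rfl⟩

theorem Runs.seq {p q : Prog} {s s' s'' : St} (h1 : Runs p s s') (h2 : Runs q s' s'') :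
    Runs (Prog.seq p q) s s'' := by
  intro k
  obtain ⟨n, hn, e1⟩ := h1 (q :: k)
  obtain ⟨m, hm, e2⟩ := h2 k
  refine ⟨m + n + 1, by omega, ?_⟩
  rw [Function.iterate_add_apply stp (m + n) 1, Function.iterate_one]
  change stp^[m + n] (p :: q :: k, s) = _
  rw [Function.iterate_add_apply, e1, e2]

theorem Runs.wh0 {r : ℕ} {p : Prog} {s : St} (h : s r = 0) : Runs (Prog.wh r p) s s := by
  intro k
  refine ⟨1, one_pos, ?_⟩
  rw [Function.iterate_one]
  change (if s r = 0 then (k, s) else _) = _
  rw [if_pos h]

theorem Runs.whS {r : ℕ} {p : Prog} {s s' s'' : St} (h : s r ≠ 0) (h1 : Runs p s s')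
    (h2 : Runs (Prog.wh r p) s' s'') : Runs (Prog.wh r p) s s'' := by
  intro k
  obtain ⟨n, hn, e1⟩ := h1 (Prog.wh r p :: k)
  obtain ⟨m, hm, e2⟩ := h2 k
  refine ⟨m + n + 1, by omega, ?_⟩
  rw [Function.iterate_add_apply stp (m + n) 1, Function.iterate_one]
  have : stp (Prog.wh r p :: k, s) = (p :: Prog.wh r p :: k, s) := by
    change (if s r = 0 then (k, s) else _) = _
    rw [if_neg h]
  rw [this, Function.iterate_add_apply, e1, e2]

/-- set a register to zero -/
def clr (r : ℕ) : Prog := Prog.wh r (Prog.dec r)

theorem Runs.clr (r : ℕ) (s : St) : Runs (clr r) s (Function.update s r 0) := by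
  have : ∀ n, ∀ s : St, s r = n → Runs (Helper86.clr r) s (Function.update s r 0) := by
    intro n
    induction n with
    | zero =>
      intro s h
      have e : Function.update s r 0 = s := by
        rw [← h]; exact Function.update_eq_self r s
      rw [e]
      exact Runs.wh0 h
    | succ n ih =>
      intro s h
      refine Runs.whS (by omega) (Runs.dec r s) ?_
      have := ih (Function.update s r (s r - 1)) (by simp [h])
      rwa [Function.update_idem] at this
  exact this _ s rfl

theorem Runs.clr_of_zero {r : ℕ} {s : St} (h : s r = 0) : Runs (Helper86.clr r) s s :=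
  Runs.wh0 h

/-- add register `a` to register `c` and clear `a` -/
def mv (a c : ℕ) : Prog := Prog.wh a (Prog.seq (Prog.dec a) (Prog.inc c))

theorem Runs.mv (a c : ℕ) (hac : a ≠ c) (s : St) :
    Runs (mv a c) s (Function.update (Function.update s c (s c + s a)) a 0) := by
  have : ∀ n, ∀ s : St, s a = n →
      Runs (Helper86.mv a c) s (Function.update (Function.update s c (s c + s a)) a 0) := by
    intro n
    induction n with
    | zero =>
      intro s h
      have e : Function.update (Function.update s c (s c + s a)) a 0 = s := by
        funext x
        simp only [Function.update_apply]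
        split_ifs with h1 h2
        · rw [h1, h]
        · rw [h2, h]; rfl
        · rfl
      rw [e]
      exact Runs.wh0 h
    | succ n ih =>
      intro s h
      refine Runs.whS (by omega) (Runs.seq (Runs.dec a s) (Runs.inc c _)) ?_
      have := ih (Function.update (Function.update s a (s a - 1)) c
        (Function.update s a (s a - 1) c + 1)) (by
          rw [Function.update_of_ne hac, Function.update_self]; omega)
      change Runs (Helper86.mv a c) _ _
      convert this using 1
      funext x
      simp only [Function.update_apply]
      split_ifs <;> first | rfl | omega | (exfalso; omega)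
  exact this _ s rfl

/-- add register `a` to register `c`, using the scratch register `d` (assumed zero) -/
def cp (a c d : ℕ) : Prog :=
  Prog.seq (Prog.wh a (Prog.seq (Prog.dec a) (Prog.seq (Prog.inc c) (Prog.inc d)))) (mv d a)

theorem Runs.cp (a c d : ℕ) (hac : a ≠ c) (had : a ≠ d) (hcd : c ≠ d) (s : St) (hd : s d = 0) :
    Runs (cp a c d) s (Function.update s c (s c + s a)) := by
  have key : ∀ n, ∀ s : St, s a = n →
      Runs (Prog.wh a (Prog.seq (Prog.dec a) (Prog.seq (Prog.inc c) (Prog.inc d)))) s
        (Function.update (Function.update (Function.update s c (s c + s a)) d (s d + s a)) a 0) := by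
    intro n
    induction n with
    | zero =>
      intro s h
      have e : (Function.update (Function.update (Function.update s c (s c + s a)) d (s d + s a)) a 0)
          = s := by
        funext x
        simp only [Function.update_apply]
        split_ifs with h1 h2 h3
        · rw [h1, h]
        · rw [h2, h]; rfl
        · rw [h3, h]; rfl
        · rfl
      rw [e]
      exact Runs.wh0 h
    | succ n ih =>
      intro s h
      refine Runs.whS (by omega) (Runs.seq (Runs.dec a s) (Runs.seq (Runs.inc c _) (Runs.inc d _))) ?_
      have := ih _ (show (Function.update (Function.update (Function.update s a (s a - 1)) c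
        (Function.update s a (s a - 1) c + 1)) d
          ((Function.update (Function.update s a (s a - 1)) c
        (Function.update s a (s a - 1) c + 1)) d + 1)) a = n by
          simp only [Function.update_apply]
          split_ifs <;> first | omega | (exfalso; omega))
      convert this using 1
      funext x
      simp only [Function.update_apply]
      split_ifs <;> first | rfl | omega | (exfalso; omega)
  refine Runs.seq (key _ s rfl) ?_
  have h2 := Runs.mv d a had.symm
    (Function.update (Function.update (Function.update s c (s c + s a)) d (s d + s a)) a 0)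
  convert h2 using 1
  funext x
  simp only [Function.update_apply]
  split_ifs with h1 h2 h3 h4 h5 <;> subst_vars <;> first | rfl | omega | simp_all

end Pool.Agent.Work.Helper86
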